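import Mathlib

/-!
The overtwisted disc of Borman, Eliashberg and Murphy, as a contact germ given by two charts.

Coordinates on `Mod n` are `z, w, x` with `x ∈ ℂ^(n-1)`, `u = ∑ |x i|²`.
* In the chart `Δ × ℂ` we have `w = √v · e^{it}` and the contact form is `λ_st + v dt`.
* In the chart `Δ × T*S¹` we identify `T*S¹` with `ℂ ∖ 0` by `w = e^{v + it}`, the contact
  form is again `λ_st + v dt`.
`P U lam f` says that `f` is a contact immersion of the open set `U` with the form `lam`.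
-/

open Set Filter Topology

noncomputable section

namespace Pool.Agent.Lib.MP_ccffa6_gt

/-- Model space of dimension `2 n + 1`, with coordinates `z, w, x`. -/
abbrev Mod (n : ℕ) : Type := ℝ × ℂ × (Fin (n - 1) → ℂ)

/-- The covector `r² dφ = a db - b da` at the point `c = a + i b = r e^{iφ}` of `ℂ`. -/
def ang (c : ℂ) : ℂ →L[ℝ] ℝ := c.re • Complex.imCLM - c.im • Complex.reCLM

section

variable {n : ℕ}

/-- The coordinate `z`. -/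
def Mod.z (n : ℕ) : Mod n →L[ℝ] ℝ := ContinuousLinearMap.fst ℝ ℝ _

/-- The coordinate `w`. -/
def Mod.w (n : ℕ) : Mod n →L[ℝ] ℂ :=
  (ContinuousLinearMap.fst ℝ ℂ _).comp (ContinuousLinearMap.snd ℝ ℝ _)

/-- The coordinate `x i`. -/
def Mod.x (n : ℕ) (i : Fin (n - 1)) : Mod n →L[ℝ] ℂ :=
  (ContinuousLinearMap.proj i).comp
    ((ContinuousLinearMap.snd ℝ ℂ _).comp (ContinuousLinearMap.snd ℝ ℝ _))

/-- `u = ∑ u_i = ∑ |x i|²`. -/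
def uu (p : Mod n) : ℝ := ∑ i, ‖p.2.2 i‖ ^ 2

/-- `λ_st = dz + ∑ u_i dφ_i`. -/
def lamSt (p : Mod n) : Mod n →L[ℝ] ℝ := Mod.z n + ∑ i, (ang (p.2.2 i)).comp (Mod.x n i)

/-- `λ_st + v dt` on `Δ × T*S¹`, where `w = e^{v + it}`. -/
def lam1 (p : Mod n) : Mod n →L[ℝ] ℝ :=
  lamSt p + (Real.log ‖p.2.1‖ / ‖p.2.1‖ ^ 2) • (ang p.2.1).comp (Mod.w n)

/-- `λ_st + v dt` on `Δ × ℂ`, where `w = √v · e^{it}`. -/
def lam2 (p : Mod n) : Mod n →L[ℝ] ℝ := lamSt p + (ang p.2.1).comp (Mod.w n)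

/-- The graph `v = K(u, z)` over `{u ≤ 1, -1 ≤ z ≤ z_D}`, in `Δ × T*S¹`. -/
def Sig1 (n : ℕ) (zD : ℝ) (K : ℝ × ℝ → ℝ) : Set (Mod n) :=
  {p | p.1 ∈ Icc (-1) zD ∧ uu p ≤ 1 ∧ ‖p.2.1‖ = Real.exp (K (uu p, p.1))}

/-- The side `0 ≤ v ≤ K(u, z)` over `{z = -1} ∪ {u = 1}`, in `Δ × ℂ`. -/
def Sig2 (n : ℕ) (zD : ℝ) (K : ℝ × ℝ → ℝ) : Set (Mod n) :=
  {p | p.1 ∈ Icc (-1) zD ∧ uu p ≤ 1 ∧ (p.1 = -1 ∨ uu p = 1) ∧ ‖p.2.1‖ ^ 2 ≤ K (uu p, p.1)}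

/-- The common boundary of the two pieces, seen in `Δ × ℂ`. -/
def Corner (n : ℕ) (zD : ℝ) (K : ℝ × ℝ → ℝ) : Set (Mod n) :=
  {p | p ∈ Sig2 n zD K ∧ ‖p.2.1‖ ^ 2 = K (uu p, p.1)}

/-- Polar coordinates: `√v · e^{it} ↦ e^{v + it}`. -/
def polar (p : Mod n) : Mod n :=
  (p.1, ((Real.exp (‖p.2.1‖ ^ 2) / ‖p.2.1‖ : ℝ) : ℂ) * p.2.1, p.2.2)

end

/-- The spherically symmetric Hamiltonians `K(u, z)` on `[0, 1] × [-1, z_D]` that are allowed.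
The class contains every special Hamiltonian with `K ≤ 1 / n` [`Small.of_special`] and every
`K_ε` with `ε ≤ 1 / n` [`Small.of_eps`]. -/
structure Small (n : ℕ) (zD : ℝ) (K : ℝ × ℝ → ℝ) : Prop where
  lt : -1 < zD
  cont : ContinuousOn K (Icc 0 1 ×ˢ Icc (-1) zD)
  pos_bot : ∀ u ∈ Icc (0 : ℝ) 1, 0 < K (u, -1)
  pos_side : ∀ z ∈ Icc (-1) zD, 0 < K (1, z)
  le_side : ∀ z ∈ Icc (-1) zD, K (1, z) ≤ 1 / n
  le_end : ∀ u ∈ Icc (0 : ℝ) 1, K (u, zD) ≤ u / n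

/-- The target contains an overtwisted disc `D_K = Σ₁ ∪ Σ₂`: two contact immersions, defined near
`Σ₁` and near `Σ₂`, agree in polar coordinates near the corner and embed the disc. -/
def HasDisc (n : ℕ) {X : Type}
    (P : Set (Mod n) → (Mod n → Mod n →L[ℝ] ℝ) → (Mod n → X) → Prop) : Prop :=
  ∃ (zD : ℝ) (K : ℝ × ℝ → ℝ) (U₁ U₂ : Set (Mod n)) (f₁ f₂ : Mod n → X),
    Small n zD K ∧ Sig1 n zD K ⊆ U₁ ∧ Sig2 n zD K ⊆ U₂ ∧ P U₁ lam1 f₁ ∧ P U₂ lam2 f₂ ∧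
    (∀ᶠ p in 𝓝ˢ (Corner n zD K), f₂ p = f₁ (polar p)) ∧
    InjOn f₁ (Sig1 n zD K) ∧ InjOn f₂ (Sig2 n zD K) ∧
    ∀ p ∈ Sig2 n zD K, ∀ q ∈ Sig1 n zD K, f₂ p = f₁ q → p ∈ Corner n zD K ∧ q = polar p

theorem HasDisc.map {n : ℕ} {X Y : Type}
    {P : Set (Mod n) → (Mod n → Mod n →L[ℝ] ℝ) → (Mod n → X) → Prop}
    {Q : Set (Mod n) → (Mod n → Mod n →L[ℝ] ℝ) → (Mod n → Y) → Prop} (e : X → Y) (S : Set X)
    (he : InjOn e S) (hS : ∀ U lam f, P U lam f → MapsTo f U S)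
    (h : ∀ U lam f, P U lam f → Q U lam (e ∘ f)) (hP : HasDisc n P) : HasDisc n Q := by
  obtain ⟨zD, K, U₁, U₂, f₁, f₂, hK, h1, h2, hP1, hP2, hc, hi1, hi2, hi⟩ := hP
  have m1 := hS _ _ _ hP1
  have m2 := hS _ _ _ hP2
  refine ⟨zD, K, U₁, U₂, e ∘ f₁, e ∘ f₂, hK, h1, h2, h _ _ _ hP1, h _ _ _ hP2,
    hc.mono fun p hp => congrArg e hp, fun p hp q hq hpq => ?_, fun p hp q hq hpq => ?_,
    fun p hp q hq hpq => ?_⟩
  · exact hi1 hp hq (he (m1 (h1 hp)) (m1 (h1 hq)) hpq)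
  · exact hi2 hp hq (he (m2 (h2 hp)) (m2 (h2 hq)) hpq)
  · exact hi p hp q hq (he (m2 (h2 hp)) (m1 (h1 hq)) hpq)

/-- A special Hamiltonian in the sense of Borman, Eliashberg and Murphy (only continuity,
positivity on the boundary and the equality with a special function `k` at `z = z_D` are
required) which is bounded by `1 / n` is allowed. -/
theorem Small.of_special {n : ℕ} {zD : ℝ} {K : ℝ × ℝ → ℝ} {k : ℝ → ℝ} (hz : zD ∈ Ioo (-1 : ℝ) 1)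
    (hc : ContinuousOn K (Icc 0 1 ×ˢ Icc (-1) 1))
    (hpos : ∀ u ∈ Icc (0 : ℝ) 1, ∀ z ∈ Icc (-1 : ℝ) 1, u = 1 ∨ |z| = 1 → 0 < K (u, z))
    (hk : ∀ a : ℝ, 1 < a → ∀ u : ℝ, 0 ≤ u → a * k (u / a) < k u)
    (heq : ∀ u ∈ Icc (0 : ℝ) 1, K (u, zD) = k u)
    (hle : ∀ u ∈ Icc (0 : ℝ) 1, ∀ z ∈ Icc (-1 : ℝ) 1, K (u, z) ≤ 1 / n) : Small n zD K where
  lt := hz.1
  cont := hc.mono (prod_mono_right (Icc_subset_Icc_right hz.2.le))
  pos_bot u hu := hpos u hu (-1) ⟨le_rfl, by norm_num⟩ (Or.inr (by simp))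
  pos_side z h := hpos 1 ⟨zero_le_one, le_rfl⟩ z ⟨h.1, h.2.trans hz.2.le⟩ (Or.inl rfl)
  le_side z h := hle 1 ⟨zero_le_one, le_rfl⟩ z ⟨h.1, h.2.trans hz.2.le⟩
  le_end u hu := by
    have h1 : k 1 ≤ 1 / n := by
      rw [← heq 1 ⟨zero_le_one, le_rfl⟩]
      exact hle 1 ⟨zero_le_one, le_rfl⟩ zD ⟨hz.1.le, hz.2.le⟩
    rw [heq u hu]
    rcases hu.1.eq_or_lt with h0 | h0
    · subst h0
      have := hk 2 (by norm_num) 0 le_rfl
      rw [zero_div] at this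
      rw [zero_div]
      linarith
    rcases hu.2.eq_or_lt with h2 | h2
    · subst h2
      exact h1
    · have := hk u⁻¹ (one_lt_inv_iff₀.2 ⟨h0, h2⟩) 1 zero_le_one
      rw [one_div, inv_inv, inv_mul_lt_iff₀ h0] at this
      calc k u ≤ u * k 1 := this.le
        _ ≤ u * (1 / n) := by gcongr
        _ = u / n := by ring

/-- The Hamiltonians `K_ε`, equal to `max (k_ε |z|) (k_ε u)` with `k_ε s = max 0 (s - (1 - ε))`
outside the interior of `{|z| ≤ 1 - ε, u ≤ 1 - ε}`, are allowed for `ε ≤ 1 / n`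
[here `z_D = 1 - ε`; nothing is required in the interior except continuity]. -/
theorem Small.of_eps {n : ℕ} {ε : ℝ} {K : ℝ × ℝ → ℝ} (h0 : 0 < ε) (h1 : ε < 1) (hn : ε ≤ 1 / n)
    (hc : ContinuousOn K (Icc 0 1 ×ˢ Icc (-1) (1 - ε)))
    (heq : ∀ u ∈ Icc (0 : ℝ) 1, ∀ z ∈ Icc (-1 : ℝ) (1 - ε), 1 - ε ≤ u ∨ 1 - ε ≤ |z| →
      K (u, z) = max (max 0 (|z| - (1 - ε))) (max 0 (u - (1 - ε)))) : Small n (1 - ε) K where
  lt := by linarith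
  cont := hc
  pos_bot u hu := by
    rw [heq u hu (-1) ⟨le_rfl, by linarith⟩ (Or.inr (by simp [h0.le]))]
    simp [h0]
  pos_side z h := by
    rw [heq 1 ⟨zero_le_one, le_rfl⟩ z h (Or.inl (by linarith))]
    simp [h0]
  le_side z h := by
    rw [heq 1 ⟨zero_le_one, le_rfl⟩ z h (Or.inl (by linarith))]
    have : |z| ≤ 1 := abs_le.2 ⟨h.1, by linarith [h.2]⟩
    refine max_le (max_le (by positivity) (by linarith)) (max_le (by positivity) (by linarith))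
  le_end u hu := by
    have ha : |1 - ε| = 1 - ε := abs_of_nonneg (by linarith)
    rw [heq u hu (1 - ε) ⟨by linarith, le_rfl⟩ (Or.inr ha.ge), ha]
    have h2 : 0 ≤ u / n := div_nonneg hu.1 (Nat.cast_nonneg n)
    have h3 : u * ε ≤ u / n := by
      calc u * ε ≤ u * (1 / n) := by gcongr; exact hu.1
        _ = u / n := by ring
    refine max_le (max_le h2 (by linarith)) (max_le h2 ?_)
    nlinarith [hu.1, hu.2]

end Pool.Agent.Lib.MP_ccffa6_gt
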