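import Mathlib

/-!
The notions used in the final statement (abstract manifolds of Mathlib).
-/

open Set Filter Topology Manifold
open scoped ContDiff

noncomputable section

namespace Pool.Agent.Lib.MP_ccffa6_gt

section

variable {H : Type} [NormedAddCommGroup H] [NormedSpace ℝ H]
  (M : Type) [TopologicalSpace M] [ChartedSpace H M] [IsManifold 𝓘(ℝ, H) ∞ M]

/-- A field of covectors on `M`. -/
abbrev Covec : Type := (x : M) → TangentSpace 𝓘(ℝ, H) x →L[ℝ] ℝ

/-- A field of endomorphisms of the tangent spaces of `M`. -/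
abbrev Endo : Type := (x : M) → TangentSpace 𝓘(ℝ, H) x →L[ℝ] TangentSpace 𝓘(ℝ, H) x

variable {M}

/-- A continuous family, over the parameter set `P`, of almost contact structures: the cooriented
hyperplane field is `ker a` (`a` nowhere zero), and `J` is a complex structure on `ker a`
(only the restriction of `J` to `ker a` matters). -/
structure ACFamily (P : Set ℝ) (a : ℝ → Covec (H := H) M) (J : ℝ → Endo (H := H) M) : Prop where
  ca : ContinuousOn
    (fun q : ℝ × TangentBundle 𝓘(ℝ, H) M => a q.1 q.2.proj q.2.snd) (P ×ˢ univ)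
  ne : ∀ t ∈ P, ∀ x, a t x ≠ 0
  cJ : ContinuousOn
    (fun q : ℝ × TangentBundle 𝓘(ℝ, H) M =>
      (⟨q.2.proj, J q.1 q.2.proj q.2.snd⟩ : TangentBundle 𝓘(ℝ, H) M))
    {q | q.1 ∈ P ∧ a q.1 q.2.proj q.2.snd = 0}
  map : ∀ t ∈ P, ∀ x v, a t x v = 0 → a t x (J t x v) = 0
  sq : ∀ t ∈ P, ∀ x v, a t x v = 0 → J t x (J t x v) = -v

/-- An almost contact structure `(ker a, J)`. -/
def AlmostContact (a : Covec (H := H) M) (J : Endo (H := H) M) : Prop :=
  ACFamily {0} (fun _ => a) (fun _ => J)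

/-- Two almost contact structures are homotopic. -/
def SameClass (a₀ : Covec (H := H) M) (J₀ : Endo (H := H) M) (a₁ : Covec (H := H) M)
    (J₁ : Endo (H := H) M) : Prop :=
  ∃ (a : ℝ → Covec (H := H) M) (J : ℝ → Endo (H := H) M), ACFamily (Icc 0 1) a J ∧
    a 0 = a₀ ∧ J 0 = J₀ ∧ a 1 = a₁ ∧ J 1 = J₁

/-- A smooth one-form. -/
def SmoothForm (α : Covec (H := H) M) : Prop :=
  ContMDiff 𝓘(ℝ, H).tangent 𝓘(ℝ, ℝ) ∞ (fun v : TangentBundle 𝓘(ℝ, H) M => α v.proj v.snd)

/-- The form `α` read in the chart at `x`. -/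
def inChart (α : Covec (H := H) M) (x : M) (y : H) : H →L[ℝ] ℝ :=
  (α ((chartAt H x).symm y)).comp (mfderiv 𝓘(ℝ, H) 𝓘(ℝ, H) (chartAt H x).symm y)

/-- The exterior derivative `dα` at `x`, computed in the chart at `x`. -/
def extD (α : Covec (H := H) M) (x : M) (u v : TangentSpace 𝓘(ℝ, H) x) : ℝ :=
  fderiv ℝ (inChart α x) (chartAt H x x) u v - fderiv ℝ (inChart α x) (chartAt H x x) v u

/-- A contact form: smooth, nowhere zero, `dα` nondegenerate on `ker α`. -/
structure IsContactForm (α : Covec (H := H) M) : Prop where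
  sm : SmoothForm α
  ne : ∀ x, α x ≠ 0
  nd : ∀ x u, α x u = 0 → (∀ v, α x v = 0 → extD α x u v = 0) → u = 0

/-- `J` is compatible with `dα` on `ker α`. -/
structure Compatible (α : Covec (H := H) M) (J : Endo (H := H) M) : Prop where
  inv : ∀ x u v, α x u = 0 → α x v = 0 → extD α x (J x u) (J x v) = extD α x u v
  pos : ∀ x u, α x u = 0 → u ≠ 0 → 0 < extD α x u (J x u)

/-- The contact structure `ker α` lies in the almost contact class of `(ker a, J)`. -/
def InClass (α : Covec (H := H) M) (a : Covec (H := H) M) (J : Endo (H := H) M) : Prop :=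
  ∃ J' : Endo (H := H) M, Compatible α J' ∧ SameClass α J' a J

/-- `f` is a smooth immersion of the open set `U` into `M` which maps `ker lam` to `ker α`. -/
structure CMapM {F : Type} [NormedAddCommGroup F] [NormedSpace ℝ F] (α : Covec (H := H) M)
    (U : Set F) (lam : F → F →L[ℝ] ℝ) (f : F → M) : Prop where
  op : IsOpen U
  sm : ContMDiffOn 𝓘(ℝ, F) 𝓘(ℝ, H) ∞ f U
  inj : ∀ y ∈ U, Function.Injective (mfderiv 𝓘(ℝ, F) 𝓘(ℝ, H) f y)
  ker : ∀ y ∈ U, ∀ v, α (f y) (mfderiv 𝓘(ℝ, F) 𝓘(ℝ, H) f y v) = 0 ↔ lam y v = 0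

end

end Pool.Agent.Lib.MP_ccffa6_gt
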