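import Pool.Agent.Lib.MP_ccffa6_gt.Defs
import Pool.Agent.Lib.MP_ccffa6_gt.Disc
import Pool.Agent.Lib.MP_ccffa6_gt.Stmt

/-!
The statements exported by the blocks, as propositions, and the assembly.
Each block proves `theorem X_main : XStmt n` in `<Block>/Main.lean`.
-/

open Set Manifold
open scoped ContDiff

namespace Pool.Agent.Lib.MP_ccffa6_gt

/-- Block T. -/
def TStmt (n : ℕ) : Prop :=
  ∀ (E : Type) [NormedAddCommGroup E] [NormedSpace ℝ E] [FiniteDimensional ℝ E]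
    (W : Set (E × ℝ)) (lam : Form1 (E × ℝ)) (N : Set E) (α : Form1 E) (M : Set E) (β : Form1 E),
    XCob n W lam N α M β → Hyp N α → ¬ HasDisc n (CMap M β)

/-- Block G (all `n`, also `n = 0`). -/
def GStmt (n : ℕ) : Prop :=
  ∀ (E : Type) [NormedAddCommGroup E] [NormedSpace ℝ E] [FiniteDimensional ℝ E]
    (N : Set E) (α : Form1 E), CMan n N α → ∃ (s : E → ℂ) (η : ℝ), OB N α s η

/-- Block P. -/
def PStmt (n : ℕ) : Prop :=
  ∀ (E : Type) [NormedAddCommGroup E] [NormedSpace ℝ E] [FiniteDimensional ℝ E]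
    (N : Set E) (α : Form1 E), CMan n N α →
    ∃ (F : Type) (_ : NormedAddCommGroup F) (_ : NormedSpace ℝ F) (_ : FiniteDimensional ℝ F)
      (W : Set F) (f : F → ℝ) (a b : ℝ) (β : Form1 F),
      CMan n (Lev W f a) β ∧ Hyp (Lev W f a) β ∧ NBord n W f a b (symz β) N (symz α)

/-- Block EX. -/
def EXStmt (n : ℕ) : Prop :=
  ∀ (E : Type) [NormedAddCommGroup E] [NormedSpace ℝ E] [FiniteDimensional ℝ E]
    (M : Set E) (Ω : E → Bil (E × ℝ)), Closed (2 * n + 1) M → Formal M Ω →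
    ∃ (F : Type) (_ : NormedAddCommGroup F) (_ : NormedSpace ℝ F) (_ : FiniteDimensional ℝ F)
      (W : Set F) (f : F → ℝ) (a b : ℝ) (β : Form1 F),
      CMan n (Lev W f a) β ∧ NBord n W f a b (symz β) M Ω

/-- Block ELI. -/
def ELIKStmt (n : ℕ) : Prop :=
  ∀ (E : Type) [NormedAddCommGroup E] [NormedSpace ℝ E] [FiniteDimensional ℝ E]
    (K : Type) [NormedAddCommGroup K] [NormedSpace ℝ K] [FiniteDimensional ℝ K] (η : Bil K)
    (W : Set E) (f : E → ℝ) (a b : ℝ) (Ωa Ωb : E → Bil (E × ℝ)), ND ⊤ η →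
    MStepK n K η W f a b Ωa Ωb → KGood n K η (Lev W f a) Ωa → KGood n K η (Lev W f b) Ωb

/-- Stable form of ELI (`eli_of_eliK` in `K/Stab.lean`). -/
def ELIStmt (n : ℕ) : Prop :=
  ∀ (E : Type) [NormedAddCommGroup E] [NormedSpace ℝ E] [FiniteDimensional ℝ E]
    (W : Set E) (f : E → ℝ) (a b : ℝ) (Ωa Ωb : E → Bil (E × ℝ)),
    MStep n W f a b Ωa Ωb → SGood n (Lev W f a) Ωa → SGood n (Lev W f b) Ωb

/-- Block TOP (proved from `ELIStmt n`). -/
def TEStmt (n : ℕ) : Prop :=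
  ∀ (E : Type) [NormedAddCommGroup E] [NormedSpace ℝ E] [FiniteDimensional ℝ E]
    (E' : Type) [NormedAddCommGroup E'] [NormedSpace ℝ E'] [FiniteDimensional ℝ E']
    (W : Set E) (f : E → ℝ) (a b : ℝ) (Ωa : E → Bil (E × ℝ)) (M : Set E')
    (ΩM : E' → Bil (E' × ℝ)),
    NBord n W f a b Ωa M ΩM → SGood n (Lev W f a) Ωa → SGood n M ΩM

/-- Layer F0: every stable class is good. -/
def F0Stmt (n : ℕ) : Prop :=
  ∀ (E : Type) [NormedAddCommGroup E] [NormedSpace ℝ E] [FiniteDimensional ℝ E]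
    (M : Set E) (Ω : E → Bil (E × ℝ)), Closed (2 * n + 1) M → Formal M Ω → SGood n M Ω

/-- Block U (proved from `F0Stmt n` and `ELIKStmt n`, or from anything else). -/
def UStmt (n : ℕ) : Prop :=
  ∀ (E : Type) [NormedAddCommGroup E] [NormedSpace ℝ E] [FiniteDimensional ℝ E]
    (M : Set E) (Ω : E → Bil (E × ℝ)), Closed (2 * n + 1) M → IsConnected M → Formal M Ω →
    ∃ β : Form1 E, CMan n M β ∧ Good n M β ∧ Htpy M (symz β) Ω

/-- Toolkit facts used by the assembly. -/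
def KStmt (n : ℕ) : Prop :=
  ∀ (E : Type) [NormedAddCommGroup E] [NormedSpace ℝ E] [FiniteDimensional ℝ E]
    (N : Set E) (α : Form1 E), CMan n N α →
    (Hyp N α → SGood n N (symz α)) ∧ (TStmt n → Good n N α → ¬ HasDisc n (CMap N α))

/-- The embedded form of the theorem. -/
def EmbStmt (n : ℕ) : Prop :=
  ∀ (E : Type) [NormedAddCommGroup E] [NormedSpace ℝ E] [FiniteDimensional ℝ E]
    (M : Set E) (Ω : E → Bil (E × ℝ)), Closed (2 * n + 1) M → IsConnected M → Formal M Ω →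
    ∃ β : Form1 E, CMan n M β ∧ Htpy M (symz β) Ω ∧ ¬ HasDisc n (CMap M β)

/-- The final statement. -/
def FinalStmt (n : ℕ) : Prop :=
  ∀ (M : Type) [TopologicalSpace M] [T2Space M] [CompactSpace M] [ConnectedSpace M]
    [ChartedSpace (EuclideanSpace ℝ (Fin (2 * n + 1))) M] [IsManifold (𝓡 (2 * n + 1)) ∞ M]
    (a : Covec (H := EuclideanSpace ℝ (Fin (2 * n + 1))) M)
    (J : Endo (H := EuclideanSpace ℝ (Fin (2 * n + 1))) M), AlmostContact a J →
    ∃ α : Covec (H := EuclideanSpace ℝ (Fin (2 * n + 1))) M,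
      IsContactForm α ∧ InClass α a J ∧ ¬ HasDisc n (CMapM α)

/-- Block BR. -/
def BRStmt (n : ℕ) : Prop := EmbStmt n → FinalStmt n

theorem f0_of {n : ℕ} (hK : KStmt n) (hP : PStmt n) (hEX : EXStmt n) (hTE : TEStmt n) :
    F0Stmt n := by
  intro E _ _ _ M Ω hM hΩ
  obtain ⟨F, _, _, _, W, f, a, b, β, hβ, hW⟩ := hEX E M Ω hM hΩ
  obtain ⟨F', _, _, _, W', f', a', b', β', hβ', hy, hW'⟩ := hP F _ β hβ
  exact hTE F E W f a b _ M Ω hW (hTE F' F W' f' a' b' _ _ _ hW' ((hK F' _ β' hβ').1 hy))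

theorem emb_of {n : ℕ} (hK : KStmt n) (hT : TStmt n) (hU : UStmt n) : EmbStmt n := by
  intro E _ _ _ M Ω hM hc hΩ
  obtain ⟨β, h1, h2, h3⟩ := hU E M Ω hM hc hΩ
  exact ⟨β, h1, h3, (hK E M β h1).2 hT h2⟩

end Pool.Agent.Lib.MP_ccffa6_gt
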