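import Pool.Agent.Lib.MP_ccffa6_gt.K.Main

/-!
Assembly of the blocks.
-/

namespace Pool.Agent.Lib.MP_ccffa6_gt

theorem final_of {n : ℕ} (hT : TStmt n) (hP : PStmt n) (hEX : EXStmt n) (hELI : ELIKStmt n)
    (hTE : ELIStmt n → TEStmt n) (hU : F0Stmt n → ELIKStmt n → UStmt n) (hBR : BRStmt n) :
    FinalStmt n :=
  hBR (emb_of (K_main n) hT (hU (f0_of (K_main n) hP hEX (hTE (eli_of_eliK hELI))) hELI))

end Pool.Agent.Lib.MP_ccffa6_gt
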