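import Pool.Agent.Lib.MP_ccffa6_gt.DiscEx
import Pool.Agent.Lib.MP_ccffa6_gt.Stmt

/-! A contact form on the whole space `ℝ^(2n+1)` which contains an overtwisted disc. -/

open Set Filter Topology Manifold
open scoped ContDiff

noncomputable section

namespace Pool.Agent.Lib.MP_ccffa6_gt

variable {n : ℕ} {A : ℝ}

/-- Lower end of the region. -/
def bxl (p : Mod n) : ℝ := -1 - 1 / (2 * (1 + uu p))

/-- Upper end of the region. -/
def bxh (A : ℝ) (p : Mod n) : ℝ := -1 + (1 + uu p + uu p ^ 2) / 2 + A * ‖p.2.1‖ ^ 2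

/-- The region between two graphs. -/
def bxB (n : ℕ) (A : ℝ) : Set (Mod n) := {p | bxl p < p.1 ∧ p.1 < bxh A p}

/-- Parametrisation of the region. -/
def bxΨ (A : ℝ) (p : Mod n) : Mod n :=
  ((bxl p + bxh A p * Real.exp p.1) / (1 + Real.exp p.1), p.2)

/-- Its inverse. -/
def bxΦ (A : ℝ) (p : Mod n) : Mod n := (Real.log ((p.1 - bxl p) / (bxh A p - p.1)), p.2)

theorem bx_uu (p : Mod n) : 0 ≤ uu p := Finset.sum_nonneg fun _ _ => sq_nonneg _

theorem bx_l (p : Mod n) : bxl p < -1 := by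
  have := bx_uu p
  unfold bxl
  have : 0 < 1 / (2 * (1 + uu p)) := by positivity
  linarith

theorem bx_h (hA : 0 ≤ A) (p : Mod n) : -1 < bxh A p := by
  have := bx_uu p
  unfold bxh
  have : 0 < (1 + uu p + uu p ^ 2) / 2 + A * ‖p.2.1‖ ^ 2 := by positivity
  linarith

theorem bx_sl : ContDiff ℝ ∞ (bxl : Mod n → ℝ) :=
  contDiff_const.sub (contDiff_const.div (contDiff_const.mul (contDiff_const.add dx_uu))
    fun p => by have := bx_uu p; positivity)

theorem bx_sh : ContDiff ℝ ∞ (bxh A : Mod n → ℝ) :=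
  (contDiff_const.add (((contDiff_const.add dx_uu).add (dx_uu.pow 2)).div_const 2)).add
    (contDiff_const.mul ((contDiff_norm_sq ℝ).comp dx_w))

theorem bx_open : IsOpen (bxB n A) :=
  (isOpen_lt bx_sl.continuous continuous_fst).inter (isOpen_lt continuous_fst bx_sh.continuous)

theorem bx_sub {p : Mod n} (h : p ∈ bxB n A) : dxq p < 1 / 2 ∨ p.2.1 ≠ 0 := by
  refine or_iff_not_imp_right.2 fun h0 => ?_
  obtain ⟨h1, h2⟩ := h
  have hu := bx_uu p
  rw [bxh, not_not.1 h0, norm_zero] at h2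
  unfold dxq
  rcases le_total (uu p) 1 with h3 | h3
  · rcases h3.eq_or_lt with h3 | h3
    · rw [h3]
      norm_num
    · have h4 := mul_lt_mul_of_pos_left (show 1 + p.1 < (1 + uu p + uu p ^ 2) / 2 by linarith)
        (sub_pos.2 h3)
      nlinarith [pow_nonneg hu 3]
  · have h4 : -(1 + p.1) * (2 * (1 + uu p)) < 1 := by
      rw [← lt_div_iff₀ (by positivity)]
      unfold bxl at h1
      linarith
    rcases le_total (1 + p.1) 0 with h5 | h5 <;> nlinarith

theorem bx_sΨ : ContDiff ℝ ∞ (bxΨ A : Mod n → Mod n) :=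
  ((bx_sl.add (bx_sh.mul contDiff_fst.exp)).div (contDiff_const.add contDiff_fst.exp)
    fun _ => by positivity).prodMk contDiff_snd

theorem bx_sΦ : ContDiffOn ℝ ∞ (bxΦ A) (bxB n A) := fun _ hp =>
  ((((contDiff_fst.sub bx_sl).contDiffAt.div (bx_sh.sub contDiff_fst).contDiffAt
    (sub_pos.2 hp.2).ne').log (div_pos (sub_pos.2 hp.1) (sub_pos.2 hp.2)).ne').prodMk
    contDiffAt_snd).contDiffWithinAt

theorem bx_mem (hA : 0 ≤ A) (p : Mod n) : bxΨ A p ∈ bxB n A := by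
  have h1 := (bx_l p).trans (bx_h hA p)
  have h2 := Real.exp_pos p.1
  constructor
  · change bxl p < (bxl p + bxh A p * Real.exp p.1) / (1 + Real.exp p.1)
    rw [lt_div_iff₀ (by positivity)]
    nlinarith
  · change (bxl p + bxh A p * Real.exp p.1) / (1 + Real.exp p.1) < bxh A p
    rw [div_lt_iff₀ (by positivity)]
    nlinarith

theorem bx_ΨΦ {p : Mod n} (h : p ∈ bxB n A) : bxΨ A (bxΦ A p) = p := by
  have h1 := sub_pos.2 h.1
  have h2 := sub_pos.2 h.2
  refine Prod.ext ?_ rfl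
  change (bxl p + bxh A p * Real.exp (Real.log ((p.1 - bxl p) / (bxh A p - p.1)))) /
    (1 + Real.exp (Real.log ((p.1 - bxl p) / (bxh A p - p.1)))) = p.1
  rw [Real.exp_log (div_pos h1 h2), div_eq_iff (by positivity)]
  field_simp
  ring

theorem bx_ΦΨ (hA : 0 ≤ A) (p : Mod n) : bxΦ A (bxΨ A p) = p := by
  have h1 := sub_pos.2 ((bx_l p).trans (bx_h hA p))
  have h2 := Real.exp_pos p.1
  refine Prod.ext ?_ rfl
  change Real.log (((bxl p + bxh A p * Real.exp p.1) / (1 + Real.exp p.1) - bxl p) /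
    (bxh A p - (bxl p + bxh A p * Real.exp p.1) / (1 + Real.exp p.1))) = p.1
  have e1 : (bxl p + bxh A p * Real.exp p.1) / (1 + Real.exp p.1) - bxl p =
      Real.exp p.1 * ((bxh A p - bxl p) / (1 + Real.exp p.1)) := by
    field_simp
    ring
  have e2 : bxh A p - (bxl p + bxh A p * Real.exp p.1) / (1 + Real.exp p.1) =
      (bxh A p - bxl p) / (1 + Real.exp p.1) := by
    field_simp
    ring
  rw [e1, e2, mul_div_cancel_right₀ _ (by positivity), Real.log_exp]

theorem bx_shrink {S B V : Set (Mod n)} {α lam : Form1 (Mod n)} {f : Mod n → Mod n}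
    (h : CMap S α V lam f) (hB : IsOpen B) : CMap B α (V ∩ f ⁻¹' B) lam f :=
  ⟨h.sm.continuousOn.isOpen_inter_preimage h.op hB, h.sm.mono inter_subset_left,
    fun _ hy => hy.2, fun y hy => h.inj y hy.1, fun y hy => h.ker y hy.1⟩

theorem bx_disc (hn : 1 ≤ n) : ∃ A : ℝ, 0 ≤ A ∧ HasDisc n (CMap (bxB n A) dxα) := by
  have h0 : (0 : ℝ) < n := by exact_mod_cast hn
  obtain ⟨m, hm, hmK⟩ : ∃ m : ℝ, 0 < m ∧ ∀ p : Mod n, dxq p ≤ 1 → m ≤ (1 - dxq p) / n + dxc p := by
    refine ⟨min (1 / 4 / n) (expNegInvGlue (1 / 4)),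
      lt_min (by positivity) (expNegInvGlue.pos_of_pos (by norm_num)), fun p hp => ?_⟩
    rcases le_total (dxq p) (3 / 4) with h | h
    · exact (min_le_left _ _).trans (le_add_of_le_of_nonneg
        (div_le_div_of_nonneg_right (by linarith) h0.le) (expNegInvGlue.nonneg _))
    · exact (min_le_right _ _).trans (le_add_of_nonneg_of_le (div_nonneg (by linarith) h0.le)
        (expNegInvGlue.monotone (by linarith)))
  have hA : 0 ≤ 1 / m := by positivity
  have s2 : ∀ p ∈ Sig2 n 0 fun q => (1 - (1 - q.1) * (1 + q.2)) / n, dxq p = 0 := by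
    rintro p ⟨-, -, h | h, -⟩ <;> simp [dxq, h]
  have s1 : ∀ p ∈ Sig1 n 0 fun q => (1 - (1 - q.1) * (1 + q.2)) / n,
      p.2.1 ≠ 0 ∧ m ≤ Real.log ‖p.2.1‖ + dxc p := by
    rintro p ⟨⟨h1, h2⟩, h3, h4⟩
    refine ⟨norm_pos_iff.1 (h4 ▸ Real.exp_pos _), ?_⟩
    rw [h4, Real.log_exp]
    have h5 := bx_uu p
    exact hmK p (by unfold dxq; nlinarith)
  refine ⟨1 / m, hA, 0, fun q => (1 - (1 - q.1) * (1 + q.2)) / n, _, _, dxf, id,
    ⟨by norm_num, by fun_prop, fun u _ => by simpa using h0, fun z _ => by simpa using h0,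
      fun z _ => by simp, fun u _ => by simp⟩, fun p hp => ?_, fun p hp => ?_,
    bx_shrink dx_map1 bx_open, bx_shrink dx_map2 bx_open, ?_,
    fun p hp q hq e => ?_, injOn_id _, fun p hp q hq e => ?_⟩
  · obtain ⟨h1, h2⟩ := s1 p hp
    refine ⟨⟨h1, hm.trans_le h2⟩, (bx_l p).trans_le hp.1.1, hp.1.2.trans_lt ?_⟩
    change 0 < -1 + (1 + uu p + uu p ^ 2) / 2 + 1 / m * ‖(dxf p).2.1‖ ^ 2
    rw [dx_fn h1, Real.sq_sqrt (hm.le.trans h2)]
    have h3 : 1 ≤ 1 / m * (Real.log ‖p.2.1‖ + dxc p) := by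
      rw [one_div, ← div_eq_inv_mul, one_le_div hm]
      exact h2
    nlinarith [bx_uu p]
  · refine ⟨show dxq p < 1 / 2 by rw [s2 p hp]; norm_num, (bx_l p).trans_le hp.1.1, ?_⟩
    rcases hp.2.2.1 with h | h
    · exact h.trans_lt (bx_h hA p)
    · refine hp.1.2.trans_lt ?_
      change 0 < -1 + (1 + uu p + uu p ^ 2) / 2 + 1 / m * ‖p.2.1‖ ^ 2
      rw [h]
      have : 0 ≤ 1 / m * ‖p.2.1‖ ^ 2 := by positivity
      linarith
  · refine eventually_nhdsSet_iff_forall.2 fun p hp => ?_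
    have h1 := s2 p hp.1
    have h2 : p.2.1 ≠ 0 := by
      intro h
      have h3 : ‖p.2.1‖ ^ 2 = (1 - dxq p) / n := hp.2
      rw [h, h1] at h3
      have h4 : (0 : ℝ) < (1 - 0) / n := by positivity
      rw [← h3] at h4
      simp at h4
    filter_upwards [dx_w.continuous.continuousAt.eventually_ne h2,
      dx_q.continuous.continuousAt.eventually_lt continuousAt_const
        (show dxq p < 1 / 2 by rw [h1]; norm_num)] with y y1 y2
    exact (dx_fp y1 (dx_c0 y2)).symm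
  · rw [← dx_gf (s1 p hp).1 (hm.trans_le (s1 p hp).2), e,
      dx_gf (s1 q hq).1 (hm.trans_le (s1 q hq).2)]
  · have h1 := s1 q hq
    have h2 := hm.trans_le h1.2
    have e' : p = dxf q := e
    have hc : dxc p = 0 := dx_c0 (by rw [s2 p hp]; norm_num)
    refine ⟨⟨hp, ?_⟩, by rw [← dx_polar hc, e', dx_gf h1.1 h2]⟩
    have hc' : dxc q = 0 := by rw [e'] at hc; exact hc
    rw [e', dx_fn h1.1, Real.sq_sqrt h2.le, hc', add_zero, hq.2.2, Real.log_exp]
    rfl

theorem bx_sα {p : Mod n} (h : dxq p < 1 / 2 ∨ p.2.1 ≠ 0) : ContDiffAt ℝ ∞ dxα p :=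
  dx_st.1.contDiffAt.add ((dx_coef h).smul (dx_form (Mod.w n)).1.contDiffAt)

section
variable {H : Type} [NormedAddCommGroup H] [NormedSpace ℝ H]

/-- A contact form on a vector space is a contact form on this manifold. -/
theorem bx_contact {β : Form1 H} (hs : ContDiff ℝ ∞ β) (h0 : ∀ x, β x ≠ 0)
    (hd : ∀ x u, β x u = 0 → (∀ v, β x v = 0 → dF β x u v = 0) → u = 0) :
    IsContactForm (H := H) (M := H) β := by
  have e : ∀ x, inChart (H := H) (M := H) β x = β := fun x => by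
    funext y
    simp [inChart]
    rfl
  refine ⟨?_, h0, fun x u h1 h2 => hd x u h1 fun v hv => ?_⟩
  · exact (hs.contMDiff.comp (Bundle.contMDiff_proj _)).clm_apply
      (contMDiff_snd_tangentBundle_modelSpace H 𝓘(ℝ, H))
  · have := h2 v hv
    rwa [extD, e] at this

/-- A contact form on the whole space; every manifold which contains it contains a disc. -/
theorem ball_witness [FiniteDimensional ℝ H] (hn : 1 ≤ n) (L : H ≃L[ℝ] Mod n) : ∃ β : Covec (H := H) H,
    IsContactForm β ∧ ∀ (M : Type) [TopologicalSpace M] [ChartedSpace H M]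
      (α : Covec (H := H) M) (f : H → M), Function.Injective f → CMapM α univ β f →
      HasDisc n (CMapM α) := by
  obtain ⟨A, hA, hD⟩ := bx_disc hn
  obtain ⟨G, hG⟩ : ∃ G : H → Mod n, G = bxΨ A ∘ L := ⟨_, rfl⟩
  obtain ⟨G', hG'⟩ : ∃ G' : Mod n → H, G' = L.symm ∘ bxΦ A := ⟨_, rfl⟩
  have sG : ContDiff ℝ ∞ G := hG ▸ bx_sΨ.comp L.contDiff
  have sG' : ContDiffOn ℝ ∞ G' (bxB n A) := hG' ▸ L.symm.contDiff.comp_contDiffOn bx_sΦ
  have mG : ∀ y, G y ∈ bxB n A := fun y => hG ▸ bx_mem hA _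
  have e1 : ∀ p ∈ bxB n A, G (G' p) = p := fun p hp => by simp [hG, hG', bx_ΨΦ hp]
  have e2 : ∀ y, G' (G y) = y := fun y => by simp [hG, hG', bx_ΦΨ hA]
  have dG : ∀ y, DifferentiableAt ℝ G y := fun y => sG.differentiable (by simp) y
  have dG' : ∀ p ∈ bxB n A, DifferentiableAt ℝ G' p := fun p hp =>
    (sG'.contDiffAt (bx_open.mem_nhds hp)).differentiableAt (by simp)
  have d1 : ∀ p ∈ bxB n A, ∀ v, fderiv ℝ G (G' p) (fderiv ℝ G' p v) = v := fun p hp v => by
    have h1 := fderiv_comp p (dG _) (dG' p hp)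
    have h2 : G ∘ G' =ᶠ[𝓝 p] id := mem_of_superset (bx_open.mem_nhds hp) e1
    rw [h2.fderiv_eq, fderiv_id] at h1
    exact (congrArg (fun T : Mod n →L[ℝ] Mod n => T v) h1).symm
  have d2 : ∀ y v, fderiv ℝ G' (G y) (fderiv ℝ G y v) = v := fun y v => by
    have h1 := fderiv_comp y (dG' _ (mG y)) (dG y)
    rw [show G' ∘ G = id from funext e2, fderiv_id] at h1
    exact (congrArg (fun T : H →L[ℝ] H => T v) h1).symm
  have d3 : ∀ y v, fderiv ℝ G y (fderiv ℝ G' (G y) v) = v := fun y v => by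
    have := d1 _ (mG y) v
    rwa [e2] at this
  refine ⟨pb G dxα, bx_contact (contDiff_iff_contDiffAt.2 fun y => ?_) (fun y h => ?_)
    fun y u h1 h2 => ?_, fun M _ _ α f hf hc => ?_⟩
  · exact ((bx_sα (bx_sub (mG y))).comp y sG.contDiffAt).clm_comp
      (sG.contDiffAt.fderiv_right (by simp))
  · have h1 := congrArg (fun T : H →L[ℝ] ℝ => T (fderiv ℝ G' (G y) (1, 0, 0))) h
    simp [pb, d3, dx_α, dx_lamSt] at h1
  · rw [← d2 y u, dx_nd (bx_sub (mG y)) (fderiv ℝ G y u) h1 fun v hv => ?_, map_zero]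
    have h3 := h2 (fderiv ℝ G' (G y) v) (by simpa [pb, d3] using hv)
    rwa [dF_pb (sG.contDiffAt.of_le (by norm_cast))
      ((bx_sα (bx_sub (mG y))).differentiableAt (by simp)), d3] at h3
  · refine hD.map (f ∘ G') (bxB n A) (fun p hp q hq e => ?_) (fun _ _ _ h => h.map)
      fun V lam g h => ?_
    · rw [← e1 p hp, hf e, e1 q hq]
    have sg : ContDiffOn ℝ ∞ (G' ∘ g) V := sG'.comp h.sm h.map
    have sf : ContMDiff 𝓘(ℝ, H) 𝓘(ℝ, H) ∞ f := contMDiffOn_univ.1 hc.sm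
    have d : ∀ y ∈ V, mfderiv 𝓘(ℝ, Mod n) 𝓘(ℝ, H) (f ∘ G' ∘ g) y =
        (mfderiv 𝓘(ℝ, H) 𝓘(ℝ, H) f (G' (g y))).comp
          ((fderiv ℝ G' (g y)).comp (fderiv ℝ g y)) := fun y hy => by
      rw [← fderiv_comp y (dG' _ (h.map hy))
        ((h.sm.contDiffAt (h.op.mem_nhds hy)).differentiableAt (by simp)), ← mfderiv_eq_fderiv]
      exact mfderiv_comp y (sf.mdifferentiableAt (by simp))
        ((sg.contDiffAt (h.op.mem_nhds hy)).contMDiffAt.mdifferentiableAt (by simp))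
    refine ⟨h.op, sf.comp_contMDiffOn (contMDiffOn_iff_contDiffOn.2 sg), fun y hy => ?_,
      fun y hy v => ?_⟩
    · change Function.Injective (mfderiv 𝓘(ℝ, Mod n) 𝓘(ℝ, H) (f ∘ G' ∘ g) y)
      rw [d y hy]
      exact (hc.inj _ trivial).comp
        ((Function.LeftInverse.injective (d1 _ (h.map hy))).comp (h.inj y hy))
    · change α (f (G' (g y))) (mfderiv 𝓘(ℝ, Mod n) 𝓘(ℝ, H) (f ∘ G' ∘ g) y v) = 0 ↔ _
      rw [d y hy, ← h.ker y hy v]
      refine (hc.ker _ trivial _).trans ?_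
      change dxα (G (G' (g y))) (fderiv ℝ G (G' (g y)) (fderiv ℝ G' (g y) (fderiv ℝ g y v))) = 0 ↔ _
      rw [d1 _ (h.map hy), e1 _ (h.map hy)]

end

theorem bx_rank (hn : 1 ≤ n) :
    Module.finrank ℝ (EuclideanSpace ℝ (Fin (2 * n + 1))) = Module.finrank ℝ (Mod n) := by
  simp [Module.finrank_prod, Module.finrank_pi_fintype, Complex.finrank_real_complex]
  omega

end Pool.Agent.Lib.MP_ccffa6_gt
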