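import Mathlib

/-!
Common representation for all blocks: manifolds are subsets of finite dimensional normed spaces,
functions, maps and forms are ambient and smooth on the whole space, formal data are ambient and
continuous on the subset.
-/

open Set Filter Topology
open scoped ContDiff

noncomputable section

namespace Pool.Agent.Lib.MP_ccffa6_gt

/-- Model space. -/
abbrev Rd (d : ℕ) : Type := EuclideanSpace ℝ (Fin d)

/-- One-forms (ambient). -/
abbrev Form1 (E : Type) [NormedAddCommGroup E] [NormedSpace ℝ E] : Type := E → E →L[ℝ] ℝ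

/-- Bilinear forms on `V`. -/
abbrev Bil (V : Type) [NormedAddCommGroup V] [NormedSpace ℝ V] : Type := V →L[ℝ] V →L[ℝ] ℝ

section basic

variable {E : Type} [NormedAddCommGroup E] [NormedSpace ℝ E]
  {E' : Type} [NormedAddCommGroup E'] [NormedSpace ℝ E']
  {V : Type} [NormedAddCommGroup V] [NormedSpace ℝ V]
  {K : Type} [NormedAddCommGroup K] [NormedSpace ℝ K]

/-- Tangent space of a subset. -/
def Tan (S : Set E) (x : E) : Submodule ℝ E := Submodule.span ℝ (tangentConeAt ℝ S x)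

/-- `φ` parametrises `S` near `x`, with ambient left inverse `ψ`. -/
structure Chart {F : Type} [NormedAddCommGroup F] [NormedSpace ℝ F] (S : Set E) (x : E)
    (φ : F → E) (ψ : E → F) : Prop where
  smφ : ContDiff ℝ ∞ φ
  smψ : ContDiff ℝ ∞ ψ
  left : ∀ᶠ y in 𝓝[S] x, φ (ψ y) = y
  right : ∀ᶠ z in 𝓝 (ψ x), φ z ∈ S ∧ ψ (φ z) = z

/-- `S` is a smooth `d`-dimensional submanifold without boundary. -/
def IsSub (d : ℕ) (S : Set E) : Prop :=
  ∀ x ∈ S, ∃ (φ : Rd d → E) (ψ : E → Rd d), Chart S x φ ψ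

/-- A diffeomorphism between two subsets, with ambient smooth representatives. -/
structure Diff (S : Set E) (S' : Set E') (φ : E → E') (ψ : E' → E) : Prop where
  smφ : ContDiff ℝ ∞ φ
  smψ : ContDiff ℝ ∞ ψ
  mapφ : MapsTo φ S S'
  mapψ : MapsTo ψ S' S
  left : ∀ x ∈ S, ψ (φ x) = x
  right : ∀ y ∈ S', φ (ψ y) = y

/-- Exterior derivative of an ambient one-form. -/
def dF (α : Form1 E) (x : E) : Bil E := fderiv ℝ α x - (fderiv ℝ α x).flip

/-- Pull-back of a one-form. -/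
def pb (φ : E → E') (α : Form1 E') : Form1 E := fun x => (α (φ x)).comp (fderiv ℝ φ x)

/-- Two one-forms agree on the tangent spaces of `S`. -/
def EqT (S : Set E) (α β : Form1 E) : Prop := ∀ x ∈ S, ∀ v ∈ Tan S x, α x v = β x v

/-- `w` is alternating and nondegenerate on the subspace `T`. -/
def ND (T : Submodule ℝ V) (w : Bil V) : Prop :=
  (∀ u ∈ T, w u u = 0) ∧ ∀ u ∈ T, (∀ v ∈ T, w u v = 0) → u = 0

/-- Direct sum of two bilinear forms. -/
def osum (w : Bil V) (η : Bil K) : Bil (V × K) :=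
  w.bilinearComp (ContinuousLinearMap.fst ℝ V K) (ContinuousLinearMap.fst ℝ V K) +
    η.bilinearComp (ContinuousLinearMap.snd ℝ V K) (ContinuousLinearMap.snd ℝ V K)

/-- `T ⊕ K`. -/
def pl (T : Submodule ℝ V) (K : Type) [NormedAddCommGroup K] [NormedSpace ℝ K] :
    Submodule ℝ (V × K) := T.prod ⊤

/-- `T_x S ⊕ ℝ`. -/
def T1 (S : Set E) (x : E) : Submodule ℝ (E × ℝ) := pl (Tan S x) ℝ

/-- A continuous field of nondegenerate two-forms on the field of subspaces `T` over `S`. -/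
structure NDField {X : Type} [TopologicalSpace X] (S : Set X) (T : X → Submodule ℝ V)
    (Ω : X → Bil V) : Prop where
  cont : ContinuousOn Ω S
  nd : ∀ x ∈ S, ND (T x) (Ω x)

/-- Homotopy of such fields; the ends are compared on `T` only. -/
def NDHtpy {X : Type} [TopologicalSpace X] (S : Set X) (T : X → Submodule ℝ V)
    (Ω₀ Ω₁ : X → Bil V) : Prop :=
  ∃ H : ℝ × X → Bil V, NDField (Icc (0 : ℝ) 1 ×ˢ S) (fun q => T q.2) H ∧
    ∀ x ∈ S, ∀ u ∈ T x, ∀ v ∈ T x, H (0, x) u v = Ω₀ x u v ∧ H (1, x) u v = Ω₁ x u v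

/-- Formal (almost contact) structure on `S`: nondegenerate two-forms on `TS ⊕ ℝ`. -/
def Formal (S : Set E) (Ω : E → Bil (E × ℝ)) : Prop := NDField S (T1 S) Ω

/-- Same almost contact class. -/
def Htpy (S : Set E) (Ω₀ Ω₁ : E → Bil (E × ℝ)) : Prop := NDHtpy S (T1 S) Ω₀ Ω₁

/-- Same stable class. -/
def StabHtpy (S : Set E) (Ω₀ Ω₁ : E → Bil (E × ℝ)) : Prop :=
  ∃ (K : Type) (_ : NormedAddCommGroup K) (_ : NormedSpace ℝ K) (_ : FiniteDimensional ℝ K)
    (η : Bil K), ND ⊤ η ∧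
      NDHtpy S (fun x => pl (T1 S x) K) (fun x => osum (Ω₀ x) η) (fun x => osum (Ω₁ x) η)

/-- `ds ∧ α + dα` on `E × ℝ`: the form `d(e^s α)` at `s = 0`. -/
def symz (α : Form1 E) (x : E) : Bil (E × ℝ) :=
  (dF α x).bilinearComp (ContinuousLinearMap.fst ℝ E ℝ) (ContinuousLinearMap.fst ℝ E ℝ) +
    ((ContinuousLinearMap.snd ℝ E ℝ).smulRight ((α x).comp (ContinuousLinearMap.fst ℝ E ℝ)) -
      (((α x).comp (ContinuousLinearMap.fst ℝ E ℝ)).smulRight (ContinuousLinearMap.snd ℝ E ℝ)))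

/-- Pull-back of a formal structure. -/
def pb2 (φ : E → E') (Ω : E' → Bil (E' × ℝ)) (x : E) : Bil (E × ℝ) :=
  (Ω (φ x)).bilinearComp ((fderiv ℝ φ x).prodMap (ContinuousLinearMap.id ℝ ℝ))
    ((fderiv ℝ φ x).prodMap (ContinuousLinearMap.id ℝ ℝ))

/-- Closed `d`-manifold. -/
structure Closed (d : ℕ) (S : Set E) : Prop where
  sub : IsSub d S
  cpt : IsCompact S

/-- Closed contact `(2n+1)`-manifold with contact form `α`. -/
structure CMan (n : ℕ) (S : Set E) (α : Form1 E) : Prop where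
  cl : Closed (2 * n + 1) S
  sm : ContDiff ℝ ∞ α
  nd : ∀ x ∈ S, ND (T1 S x) (symz α x)

/-- `v` is the Reeb vector of `α` at `x`. -/
def IsReeb (S : Set E) (α : Form1 E) (x v : E) : Prop :=
  v ∈ Tan S x ∧ α x v = 1 ∧ ∀ w ∈ Tan S x, dF α x v w = 0

/-- Every closed Reeb orbit has a nonzero period for some closed one-form on `S`. -/
def Hyp (S : Set E) (α : Form1 E) : Prop :=
  ∀ (γ γ' : ℝ → E) (T : ℝ), 0 < T → (∀ t, γ (t + T) = γ t) → (∀ t, γ t ∈ S) →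
    (∀ t, HasDerivAt γ (γ' t) t) → (∀ t, IsReeb S α (γ t) (γ' t)) →
    ∃ θ : Form1 E, ContDiff ℝ ∞ θ ∧
      (∀ x ∈ S, ∀ u ∈ Tan S x, ∀ v ∈ Tan S x, dF θ x u v = 0) ∧
      ∫ t in (0 : ℝ)..T, θ (γ t) (γ' t) ≠ 0

/-- Smooth cobordism with cylindrical ends, `N` at the bottom, `M` at the top. -/
structure Cob (d : ℕ) (W : Set (E × ℝ)) (N M : Set E) : Prop where
  sub : IsSub (d + 1) W
  clN : Closed d N
  clM : Closed d M
  cpt : IsCompact (W ∩ univ ×ˢ Icc (0 : ℝ) 1)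
  bot : ∀ p : E × ℝ, p.2 ≤ 0 → (p ∈ W ↔ p.1 ∈ N)
  top : ∀ p : E × ℝ, 1 ≤ p.2 → (p ∈ W ↔ p.1 ∈ M)

/-- Completed exact symplectic cobordism, concave end `(N, α)`, convex end `(M, β)`. -/
structure XCob (n : ℕ) (W : Set (E × ℝ)) (lam : Form1 (E × ℝ)) (N : Set E) (α : Form1 E)
    (M : Set E) (β : Form1 E) : Prop where
  cob : Cob (2 * n + 1) W N M
  cN : CMan n N α
  cM : CMan n M β
  sm : ContDiff ℝ ∞ lam
  nd : ∀ p ∈ W, ND (Tan W p) (dF lam p)
  bot : ∀ p ∈ W, p.2 ≤ 0 → ∀ v ∈ Tan W p, lam p v = Real.exp p.2 * α p.1 v.1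
  top : ∃ c : ℝ, ∀ p ∈ W, 1 ≤ p.2 → ∀ v ∈ Tan W p, lam p v = Real.exp (p.2 + c) * β p.1 v.1

/-- `(S, β)` is the convex end of an exact cobordism whose concave end is hypertight. -/
def Good (n : ℕ) (S : Set E) (β : Form1 E) : Prop :=
  ∃ (F : Type) (_ : NormedAddCommGroup F) (_ : NormedSpace ℝ F) (_ : FiniteDimensional ℝ F)
    (W : Set (F × ℝ)) (lam : Form1 (F × ℝ)) (N : Set F) (α : Form1 F) (S₁ : Set F) (β₁ : Form1 F)
    (φ : E → F) (ψ : F → E),
    XCob n W lam N α S₁ β₁ ∧ Hyp N α ∧ Diff S S₁ φ ψ ∧ EqT S β (pb φ β₁)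

/-- The stable class of `Ω` contains a good contact form. -/
def SGood (n : ℕ) (S : Set E) (Ω : E → Bil (E × ℝ)) : Prop :=
  ∃ β : Form1 E, CMan n S β ∧ Good n S β ∧ StabHtpy S (symz β) Ω

/-- The part of `W` between the levels `a` and `b` of `f` is compact, both levels are regular
and `ν` is a continuous tangent field with `df ν = 1` along them. -/
structure Slab (d : ℕ) (W : Set E) (f : E → ℝ) (a b : ℝ) (ν : E → E) : Prop where
  sub : IsSub d W
  sm : ContDiff ℝ ∞ f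
  le : a < b
  cpt : IsCompact (W ∩ f ⁻¹' Icc a b)
  cν : ContinuousOn ν (W ∩ f ⁻¹' {a, b})
  tν : ∀ x ∈ W ∩ f ⁻¹' {a, b}, ν x ∈ Tan W x ∧ fderiv ℝ f x (ν x) = 1

/-- Level set. -/
def Lev (W : Set E) (f : E → ℝ) (a : ℝ) : Set E := W ∩ f ⁻¹' {a}

/-- All critical points of `f` on the slab have a Morse chart of index at most `k`. -/
def MorseLe (k : ℕ) (W : Set E) (f : E → ℝ) (a b : ℝ) : Prop :=
  ∀ x ∈ W ∩ f ⁻¹' Icc a b, (∀ v ∈ Tan W x, fderiv ℝ f x v = 0) →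
    ∃ (i j : ℕ) (φ : Rd i × Rd j → E) (ψ : E → Rd i × Rd j), i ≤ k ∧ Chart W x φ ψ ∧ ψ x = 0 ∧
      ∀ᶠ z in 𝓝 (0 : Rd i × Rd j), f (φ z) = f x - ‖z.1‖ ^ 2 + ‖z.2‖ ^ 2

/-- `(v, s, k) ↦ (v + s ν, k)`. -/
def incl (ν : E) (K : Type) [NormedAddCommGroup K] [NormedSpace ℝ K] :
    ((E × ℝ) × K) →L[ℝ] (E × K) :=
  (ContinuousLinearMap.fst ℝ E ℝ + (ContinuousLinearMap.snd ℝ E ℝ).smulRight ν).prodMap
    (ContinuousLinearMap.id ℝ K)

/-- Normal bordism over `M`: a slab whose upper level is identified with `M` by `φ`, a map `r` to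
`M` extending `φ`, covered by a stable bundle isomorphism `Φ`; the form pulled back from
`ΩM ⊕ η` is homotopic to `Ωa ⊕ η` on the lower level and to `φ^* ΩM ⊕ η` on the upper level. -/
def NBord (n : ℕ) (W : Set E) (f : E → ℝ) (a b : ℝ) (Ωa : E → Bil (E × ℝ)) (M : Set E')
    (ΩM : E' → Bil (E' × ℝ)) : Prop :=
  ∃ (ν : E → E) (K : Type) (_ : NormedAddCommGroup K) (_ : NormedSpace ℝ K)
    (_ : FiniteDimensional ℝ K) (η : Bil K) (φ : E → E') (ψ : E' → E) (r : E → E')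
    (Φ : E → (E × K) →L[ℝ] ((E' × ℝ) × K)),
    Slab (2 * n + 2) W f a b ν ∧ ND ⊤ η ∧ Formal (Lev W f a) Ωa ∧ Formal M ΩM ∧
    Diff (Lev W f b) M φ ψ ∧ ContinuousOn r (W ∩ f ⁻¹' Icc a b) ∧
    MapsTo r (W ∩ f ⁻¹' Icc a b) M ∧ EqOn r φ (Lev W f b) ∧
    ContinuousOn Φ (W ∩ f ⁻¹' Icc a b) ∧
    (∀ p ∈ W ∩ f ⁻¹' Icc a b, BijOn (Φ p) (pl (Tan W p) K) (pl (T1 M (r p)) K)) ∧
    NDHtpy (Lev W f a) (fun x => pl (T1 (Lev W f a) x) K) (fun x => osum (Ωa x) η)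
      (fun x => (osum (ΩM (r x)) η).bilinearComp ((Φ x).comp (incl (ν x) K))
        ((Φ x).comp (incl (ν x) K))) ∧
    NDHtpy (Lev W f b) (fun x => pl (T1 (Lev W f b) x) K) (fun x => osum (pb2 φ ΩM x) η)
      (fun x => (osum (ΩM (r x)) η).bilinearComp ((Φ x).comp (incl (ν x) K))
        ((Φ x).comp (incl (ν x) K)))

/-- A slab with handles of index at most `n + 1` and a nondegenerate form on `TW ⊕ K` which
matches `Ωa ⊕ η` on the lower level and `Ωb ⊕ η` on the upper level. -/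
def MStepK (n : ℕ) (K : Type) [NormedAddCommGroup K] [NormedSpace ℝ K] (η : Bil K) (W : Set E)
    (f : E → ℝ) (a b : ℝ) (Ωa Ωb : E → Bil (E × ℝ)) : Prop :=
  ∃ (ν : E → E) (Ω : E → Bil (E × K)),
    Slab (2 * n + 2) W f a b ν ∧ MorseLe (n + 1) W f a b ∧
    Formal (Lev W f a) Ωa ∧ Formal (Lev W f b) Ωb ∧
    NDField (W ∩ f ⁻¹' Icc a b) (fun x => pl (Tan W x) K) Ω ∧
    NDHtpy (Lev W f a) (fun x => pl (T1 (Lev W f a) x) K) (fun x => osum (Ωa x) η)
      (fun x => (Ω x).bilinearComp (incl (ν x) K) (incl (ν x) K)) ∧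
    NDHtpy (Lev W f b) (fun x => pl (T1 (Lev W f b) x) K) (fun x => osum (Ωb x) η)
      (fun x => (Ω x).bilinearComp (incl (ν x) K) (incl (ν x) K))

/-- The same with an unspecified stabilisation. -/
def MStep (n : ℕ) (W : Set E) (f : E → ℝ) (a b : ℝ) (Ωa Ωb : E → Bil (E × ℝ)) : Prop :=
  ∃ (K : Type) (_ : NormedAddCommGroup K) (_ : NormedSpace ℝ K) (_ : FiniteDimensional ℝ K)
    (η : Bil K), ND ⊤ η ∧ MStepK n K η W f a b Ωa Ωb

/-- A good contact form whose class agrees with `Ω` after adding the fixed summand `(K, η)`.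
`K = Rd 0` is the unstable statement. -/
def KGood (n : ℕ) (K : Type) [NormedAddCommGroup K] [NormedSpace ℝ K] (η : Bil K) (S : Set E)
    (Ω : E → Bil (E × ℝ)) : Prop :=
  ∃ β : Form1 E, CMan n S β ∧ Good n S β ∧
    NDHtpy S (fun x => pl (T1 S x) K) (fun x => osum (symz β x) η) (fun x => osum (Ω x) η)

/-- `X` is the vector of `ξ_x` dual to the covector `g` for `dα`. -/
def IsHam (S : Set E) (α : Form1 E) (x : E) (g : E →L[ℝ] ℝ) (X : E) : Prop :=
  X ∈ Tan S x ∧ α x X = 0 ∧ ∀ v ∈ Tan S x, α x v = 0 → dF α x X v = g v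

/-- The function `s` defines a supporting open book in the weak sense used by block P. -/
def OB (S : Set E) (α : Form1 E) (s : E → ℂ) (η : ℝ) : Prop :=
  ContDiff ℝ ∞ s ∧ 0 < η ∧ ∀ x ∈ S, ∀ R X₁ X₂ : E, IsReeb S α x R →
    IsHam S α x (Complex.reCLM.comp (fderiv ℝ s x)) X₁ →
    IsHam S α x (Complex.imCLM.comp (fderiv ℝ s x)) X₂ →
    (‖s x‖ ≤ η → 0 < dF α x X₁ X₂) ∧
    (η / 2 ≤ ‖s x‖ → 0 < ((starRingEnd ℂ) (s x) * fderiv ℝ s x R).im) ∧
    0 < ((starRingEnd ℂ) (s x) * fderiv ℝ s x R).im + 2 * dF α x X₁ X₂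

/-- `f` is a smooth immersion of the open set `U` into `S` which maps `ker lam` to `ker α`. -/
structure CMap {F : Type} [NormedAddCommGroup F] [NormedSpace ℝ F] (S : Set E) (α : Form1 E)
    (U : Set F) (lam : Form1 F) (f : F → E) : Prop where
  op : IsOpen U
  sm : ContDiffOn ℝ ∞ f U
  map : MapsTo f U S
  inj : ∀ y ∈ U, Function.Injective (fderiv ℝ f y)
  ker : ∀ y ∈ U, ∀ v, α (f y) (fderiv ℝ f y v) = 0 ↔ lam y v = 0

end basic

end Pool.Agent.Lib.MP_ccffa6_gt
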