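import Pool.Agent.Lib.MP_ccffa6_gt.Disc
import Pool.Agent.Lib.MP_ccffa6_gt.K.Forms

/-! The notion `HasDisc` is not empty: an open contact manifold which contains such a disc. -/

open Set Filter Topology
open scoped ContDiff

noncomputable section

namespace Pool.Agent.Lib.MP_ccffa6_gt

variable {n : ℕ}

/-- `(1 - u) (1 + z)`. -/
def dxq (p : Mod n) : ℝ := (1 - uu p) * (1 + p.1)

/-- The shift `c`, a function of `z` and `x`. -/
def dxc (p : Mod n) : ℝ := expNegInvGlue (dxq p - 1 / 2)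

/-- `λ_st + (|w|² - c) dt`. -/
def dxα (p : Mod n) : Mod n →L[ℝ] ℝ :=
  lamSt p + (1 - dxc p / ‖p.2.1‖ ^ 2) • (ang p.2.1).comp (Mod.w n)

/-- Radial rescaling of `w`. -/
def dxr (a : Mod n → ℝ) (p : Mod n) : Mod n := (p.1, a p • p.2.1, p.2.2)

/-- The chart near the first piece. -/
def dxf : Mod n → Mod n := dxr fun p => √(Real.log ‖p.2.1‖ + dxc p) / ‖p.2.1‖

/-- Its inverse. -/
def dxg : Mod n → Mod n := dxr fun p => Real.exp (‖p.2.1‖ ^ 2 - dxc p) / ‖p.2.1‖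

theorem dx_ang (c v : ℂ) : ang c v = c.re * v.im - c.im * v.re := by simp [ang]

theorem dx_uu : ContDiff ℝ ∞ (uu : Mod n → ℝ) :=
  ContDiff.sum fun i _ => (contDiff_norm_sq ℝ).comp (Mod.x n i).contDiff

theorem dx_q : ContDiff ℝ ∞ (dxq : Mod n → ℝ) :=
  (contDiff_const.sub dx_uu).mul (contDiff_const.add contDiff_fst)

theorem dx_c : ContDiff ℝ ∞ (dxc : Mod n → ℝ) :=
  expNegInvGlue.contDiff.comp (dx_q.sub contDiff_const)

theorem dx_c0 {p : Mod n} (h : dxq p < 1 / 2) : dxc p = 0 :=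
  expNegInvGlue.zero_of_nonpos (by linarith)

theorem dx_form (A : Mod n →L[ℝ] ℂ) : ContDiff ℝ ∞ (fun p => (ang (A p)).comp A) ∧
    ∀ p u v, dF (fun p => (ang (A p)).comp A) p u v =
      2 * ((A u).re * (A v).im - (A u).im * (A v).re) := by
  let B : Mod n →L[ℝ] Mod n →L[ℝ] ℝ :=
    (Complex.reCLM.comp A).smulRight (Complex.imCLM.comp A) -
      (Complex.imCLM.comp A).smulRight (Complex.reCLM.comp A)
  have e : (fun p => (ang (A p)).comp A) = B := by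
    funext p
    refine ContinuousLinearMap.ext fun v => ?_
    simp [B, dx_ang]
  rw [e]
  refine ⟨B.contDiff, fun p u v => ?_⟩
  rw [dF, B.fderiv]
  simp [B]
  ring

theorem dx_st : ContDiff ℝ ∞ (lamSt : Mod n → _) ∧ ∀ p u v : Mod n, dF lamSt p u v =
    ∑ i, 2 * ((u.2.2 i).re * (v.2.2 i).im - (u.2.2 i).im * (v.2.2 i).re) := by
  have h := fun i => dx_form (Mod.x n i)
  refine ⟨contDiff_const.add (ContDiff.sum fun i _ => (h i).1), fun p u v => ?_⟩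
  have d := (HasFDerivAt.fun_sum (u := Finset.univ) fun i _ =>
    (((h i).1.differentiable (by simp)) p).hasFDerivAt).const_add (Mod.z n)
  have e : fderiv ℝ lamSt p = _ := d.fderiv
  rw [dF, e]
  simp only [sub_apply, ContinuousLinearMap.flip_apply, sum_apply]
  rw [← Finset.sum_sub_distrib]
  exact Finset.sum_congr rfl fun i _ => (h i).2 p u v

theorem dx_lamSt (p v : Mod n) : lamSt p v = v.1 + ∑ i, ang (p.2.2 i) (v.2.2 i) := by
  simp [lamSt, Mod.z, Mod.x]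

theorem dx_α (p v : Mod n) :
    dxα p v = lamSt p v + (1 - dxc p / ‖p.2.1‖ ^ 2) * ang p.2.1 v.2.1 := rfl

theorem dx_w : ContDiff ℝ ∞ fun p : Mod n => p.2.1 := (Mod.w n).contDiff

theorem dx_coef {p : Mod n} (h : dxq p < 1 / 2 ∨ p.2.1 ≠ 0) :
    ContDiffAt ℝ ∞ (fun p : Mod n => 1 - dxc p / ‖p.2.1‖ ^ 2) p := by
  rcases h with h | h
  · refine (contDiffAt_const (c := (1 : ℝ))).congr_of_eventuallyEq ?_
    filter_upwards [dx_q.continuous.continuousAt.eventually_lt continuousAt_const h] with y hy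
    rw [dx_c0 hy, zero_div, sub_zero]
  · exact contDiffAt_const.sub (dx_c.contDiffAt.div ((contDiff_norm_sq ℝ).comp dx_w).contDiffAt
      (pow_ne_zero _ (norm_ne_zero_iff.2 h)))

theorem dx_fr {a : Mod n → ℝ} {p : Mod n} (h : DifferentiableAt ℝ a p) (v : Mod n) :
    fderiv ℝ (dxr a) p v = (v.1, a p • v.2.1 + fderiv ℝ a p v • p.2.1, v.2.2) := by
  have d := hasFDerivAt_fst.prodMk ((h.hasFDerivAt.smul (Mod.w n).hasFDerivAt).prodMk
    (hasFDerivAt_snd.comp p hasFDerivAt_snd))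
  have e : fderiv ℝ (dxr a) p = _ := d.fderiv
  rw [e]
  rfl

theorem dx_sr {a : Mod n → ℝ} {p : Mod n} (h : ContDiffAt ℝ ∞ a p) : ContDiffAt ℝ ∞ (dxr a) p :=
  contDiffAt_fst.prodMk ((h.smul dx_w.contDiffAt).prodMk (contDiffAt_snd.comp p contDiffAt_snd))

theorem dx_fa {p : Mod n} (h : p.2.1 ≠ 0) (h' : 0 < Real.log ‖p.2.1‖ + dxc p) :
    ContDiffAt ℝ ∞ (fun p : Mod n => √(Real.log ‖p.2.1‖ + dxc p) / ‖p.2.1‖) p := by
  have h1 : ContDiffAt ℝ ∞ (fun p : Mod n => ‖p.2.1‖) p := dx_w.contDiffAt.norm ℝ h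
  have h2 := norm_ne_zero_iff.2 h
  exact (((h1.log h2).add dx_c.contDiffAt).sqrt h'.ne').div h1 h2

theorem dx_fn {p : Mod n} (h : p.2.1 ≠ 0) : ‖(dxf p).2.1‖ = √(Real.log ‖p.2.1‖ + dxc p) := by
  have h2 := norm_ne_zero_iff.2 h
  show ‖(√(Real.log ‖p.2.1‖ + dxc p) / ‖p.2.1‖) • p.2.1‖ = _
  rw [norm_smul, Real.norm_of_nonneg (by positivity), div_mul_cancel₀ _ h2]

theorem dx_gf {p : Mod n} (h : p.2.1 ≠ 0) (h' : 0 < Real.log ‖p.2.1‖ + dxc p) :
    dxg (dxf p) = p := by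
  have h2 := norm_pos_iff.2 h
  have h3 := Real.sqrt_pos.2 h'
  refine Prod.ext rfl (Prod.ext ?_ rfl)
  show (Real.exp (‖(dxf p).2.1‖ ^ 2 - dxc p) / ‖(dxf p).2.1‖) •
    (√(Real.log ‖p.2.1‖ + dxc p) / ‖p.2.1‖) • p.2.1 = p.2.1
  rw [dx_fn h, Real.sq_sqrt h'.le, add_sub_cancel_right, Real.exp_log h2, smul_smul,
    div_mul_div_comm, mul_comm, div_self (by positivity), one_smul]

theorem dx_polar {p : Mod n} (h : dxc p = 0) : dxg p = polar p := by
  refine Prod.ext rfl (Prod.ext ?_ rfl)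
  show (Real.exp (‖p.2.1‖ ^ 2 - dxc p) / ‖p.2.1‖) • p.2.1 = _
  rw [h, sub_zero]
  rfl

theorem dx_fp {p : Mod n} (h : p.2.1 ≠ 0) (hc : dxc p = 0) : dxf (polar p) = p := by
  have h2 := norm_pos_iff.2 h
  have e : (polar p).2.1 = (Real.exp (‖p.2.1‖ ^ 2) / ‖p.2.1‖) • p.2.1 := rfl
  have e2 : ‖(polar p).2.1‖ = Real.exp (‖p.2.1‖ ^ 2) := by
    rw [e, norm_smul, Real.norm_of_nonneg (by positivity), div_mul_cancel₀ _ h2.ne']
  refine Prod.ext rfl (Prod.ext ?_ rfl)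
  show (√(Real.log ‖(polar p).2.1‖ + dxc p) / ‖(polar p).2.1‖) • (polar p).2.1 = p.2.1
  rw [e2, e, hc, add_zero, Real.log_exp, Real.sqrt_sq h2.le, smul_smul, div_mul_div_comm,
    mul_comm, div_self (by positivity), one_smul]

theorem dx_map1 : CMap {p : Mod n | dxq p < 1 / 2 ∨ p.2.1 ≠ 0} dxα
    {p | p.2.1 ≠ 0 ∧ 0 < Real.log ‖p.2.1‖ + dxc p} lam1 dxf := by
  have hn : ∀ p : Mod n, p.2.1 ≠ 0 → 0 < Real.log ‖p.2.1‖ + dxc p → (dxf p).2.1 ≠ 0 :=
    fun p h h' => norm_ne_zero_iff.1 (by rw [dx_fn h]; exact (Real.sqrt_pos.2 h').ne')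
  have op : IsOpen {p : Mod n | p.2.1 ≠ 0 ∧ 0 < Real.log ‖p.2.1‖ + dxc p} := by
    refine isOpen_iff_mem_nhds.2 fun p hp => ?_
    exact (dx_w.continuous.continuousAt.eventually_ne hp.1).and
      (continuousAt_const.eventually_lt ((dx_w.continuous.continuousAt.norm.log
        (norm_ne_zero_iff.2 hp.1)).add dx_c.continuous.continuousAt) hp.2)
  refine ⟨op, fun p hp => (dx_sr (dx_fa hp.1 hp.2)).contDiffWithinAt,
    fun p hp => Or.inr (hn p hp.1 hp.2), fun p hp => ?_, fun p hp v => ?_⟩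
  · have h0 := hn p hp.1 hp.2
    have h1 : ContDiffAt ℝ ∞ (fun p : Mod n => ‖p.2.1‖) (dxf p) := dx_w.contDiffAt.norm ℝ h0
    have dg : DifferentiableAt ℝ dxg (dxf p) :=
      (dx_sr (((h1.pow 2).sub dx_c.contDiffAt).exp.div h1
        (norm_ne_zero_iff.2 h0))).differentiableAt (by simp)
    have df : DifferentiableAt ℝ dxf p := (dx_sr (dx_fa hp.1 hp.2)).differentiableAt (by simp)
    have e : dxg ∘ dxf =ᶠ[𝓝 p] id := mem_of_superset (op.mem_nhds hp) fun y hy => dx_gf hy.1 hy.2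
    have e2 := fderiv_comp p dg df
    rw [e.fderiv_eq, fderiv_id] at e2
    exact Function.LeftInverse.injective (g := fderiv ℝ dxg (dxf p)) fun v =>
      (congrArg (fun A : Mod n →L[ℝ] Mod n => A v) e2).symm
  · have h2 := norm_ne_zero_iff.2 hp.1
    have e : dxα (dxf p) (fderiv ℝ dxf p v) = lam1 p v := by
      have e1 : lam1 p v = lamSt p v + Real.log ‖p.2.1‖ / ‖p.2.1‖ ^ 2 * ang p.2.1 v.2.1 := rfl
      have e2 : (dxf p).2.1 = (√(Real.log ‖p.2.1‖ + dxc p) / ‖p.2.1‖) • p.2.1 := rfl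
      have e3 : dxc (dxf p) = dxc p := rfl
      have e4 : (dxf p).2.2 = p.2.2 := rfl
      have e5 := Real.sq_sqrt hp.2.le
      rw [e1, dx_α, dx_fn hp.1, e2, e3, dx_lamSt, dx_lamSt, e4, dxf,
        dx_fr ((dx_fa hp.1 hp.2).differentiableAt (by simp)), dx_ang, dx_ang, e5]
      have h3 := hp.2.ne'
      simp only [Complex.add_re, Complex.add_im, Complex.smul_re, Complex.smul_im, smul_eq_mul]
      generalize √(Real.log ‖p.2.1‖ + dxc p) = r at e5
      field_simp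
      linear_combination (Real.log ‖p.2.1‖ * (p.2.1.re * v.2.1.im - p.2.1.im * v.2.1.re)) * e5
    rw [e]

theorem dx_map2 : CMap {p : Mod n | dxq p < 1 / 2 ∨ p.2.1 ≠ 0} dxα {p | dxq p < 1 / 2} lam2 id := by
  refine ⟨isOpen_lt dx_q.continuous continuous_const, contDiffOn_id, fun p hp => Or.inl hp,
    fun p _ => by rw [fderiv_id]; exact fun _ _ h => h, fun p hp v => ?_⟩
  rw [fderiv_id]
  show dxα p v = 0 ↔ lamSt p v + ang p.2.1 v.2.1 = 0
  rw [dx_α, dx_c0 hp, zero_div, sub_zero, one_mul]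

theorem dx_disc (hn : 1 ≤ n) :
    HasDisc n (CMap {p : Mod n | dxq p < 1 / 2 ∨ p.2.1 ≠ 0} dxα) := by
  have h0 : (0 : ℝ) < n := by exact_mod_cast hn
  have s2 : ∀ p ∈ Sig2 n 0 fun q => (1 - (1 - q.1) * (1 + q.2)) / n, dxq p = 0 := by
    rintro p ⟨-, -, h | h, -⟩ <;> simp [dxq, h]
  have s1 : ∀ p ∈ Sig1 n 0 fun q => (1 - (1 - q.1) * (1 + q.2)) / n,
      p.2.1 ≠ 0 ∧ 0 < Real.log ‖p.2.1‖ + dxc p := by
    rintro p ⟨⟨h1, h2⟩, h3, h4⟩
    refine ⟨norm_pos_iff.1 (h4 ▸ Real.exp_pos _), ?_⟩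
    rw [h4, Real.log_exp]
    have h5 : 0 ≤ uu p := Finset.sum_nonneg fun _ _ => sq_nonneg _
    have h6 : dxq p ≤ 1 := by unfold dxq; nlinarith
    show 0 < (1 - dxq p) / n + dxc p
    rcases le_or_gt (dxq p) (1 / 2) with h | h
    · exact add_pos_of_pos_of_nonneg (div_pos (by linarith) h0) (expNegInvGlue.nonneg _)
    · exact add_pos_of_nonneg_of_pos (div_nonneg (by linarith) h0.le)
        (expNegInvGlue.pos_of_pos (by linarith))
  refine ⟨0, fun q => (1 - (1 - q.1) * (1 + q.2)) / n, _, _, dxf, id,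
    ⟨by norm_num, by fun_prop, fun u _ => by simpa using h0, fun z _ => by simpa using h0,
      fun z _ => by simp, fun u _ => by simp⟩, s1, fun p hp => ?_, dx_map1, dx_map2, ?_,
    fun p hp q hq e => ?_, injOn_id _, fun p hp q hq e => ?_⟩
  · show dxq p < 1 / 2
    rw [s2 p hp]
    norm_num
  · refine eventually_nhdsSet_iff_forall.2 fun p hp => ?_
    have h1 := s2 p hp.1
    have h2 : p.2.1 ≠ 0 := by
      intro h
      have h3 : ‖p.2.1‖ ^ 2 = (1 - dxq p) / n := hp.2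
      rw [h, h1] at h3
      have h4 : (0 : ℝ) < (1 - 0) / n := by positivity
      rw [← h3] at h4
      simp at h4
    filter_upwards [dx_w.continuous.continuousAt.eventually_ne h2,
      dx_q.continuous.continuousAt.eventually_lt continuousAt_const
        (show dxq p < 1 / 2 by rw [h1]; norm_num)] with y y1 y2
    exact (dx_fp y1 (dx_c0 y2)).symm
  · rw [← dx_gf (s1 p hp).1 (s1 p hp).2, e, dx_gf (s1 q hq).1 (s1 q hq).2]
  · have h1 := s1 q hq
    have e' : p = dxf q := e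
    have hc : dxc p = 0 := dx_c0 (by rw [s2 p hp]; norm_num)
    refine ⟨⟨hp, ?_⟩, by rw [← dx_polar hc, e', dx_gf h1.1 h1.2]⟩
    have hc' : dxc q = 0 := by rw [e'] at hc; exact hc
    rw [e', dx_fn h1.1, Real.sq_sqrt h1.2.le, hc', add_zero, hq.2.2, Real.log_exp]
    rfl

theorem dx_d {p : Mod n} (h : dxq p < 1 / 2 ∨ p.2.1 ≠ 0) (u v : Mod n) : dF dxα p u v =
    ∑ i, 2 * ((u.2.2 i).re * (v.2.2 i).im - (u.2.2 i).im * (v.2.2 i).re) +
    (fderiv ℝ (fun p : Mod n => 1 - dxc p / ‖p.2.1‖ ^ 2) p u * ang p.2.1 v.2.1 -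
      fderiv ℝ (fun p : Mod n => 1 - dxc p / ‖p.2.1‖ ^ 2) p v * ang p.2.1 u.2.1 +
      (1 - dxc p / ‖p.2.1‖ ^ 2) * (2 * (u.2.1.re * v.2.1.im - u.2.1.im * v.2.1.re))) := by
  have h1 := (dx_coef h).differentiableAt (by simp)
  have h2 := (dx_form (Mod.w n)).1.differentiable (by simp) p
  have e := dF_add (dx_st.1.differentiable (by simp) p) (h1.smul h2)
  have e2 : dF dxα p = _ := e
  rw [e2, add_apply, add_apply, dx_st.2]
  exact congrArg _ ((dF_smul h1 h2 u v).trans (by rw [(dx_form (Mod.w n)).2]; rfl))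

/-- The derivative of the coefficient in the `w`-directions. -/
theorem dx_dw {p : Mod n} (h : dxq p < 1 / 2 ∨ p.2.1 ≠ 0) (w : ℂ) :
    fderiv ℝ (fun p : Mod n => 1 - dxc p / ‖p.2.1‖ ^ 2) p (0, w, 0) =
      dxc p / ‖p.2.1‖ ^ 2 / ‖p.2.1‖ ^ 2 * (2 * (p.2.1.re * w.re + p.2.1.im * w.im)) := by
  by_cases h0 : p.2.1 = 0
  · have h1 := h.resolve_right (not_not.2 h0)
    have e : (fun p : Mod n => 1 - dxc p / ‖p.2.1‖ ^ 2) =ᶠ[𝓝 p] fun _ => 1 := by
      filter_upwards [dx_q.continuous.continuousAt.eventually_lt continuousAt_const h1] with y hy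
      rw [dx_c0 hy, zero_div, sub_zero]
    rw [e.fderiv_eq, dx_c0 h1]
    simp
  have d1 : HasDerivAt (fun t : ℝ => p + t • ((0, w, 0) : Mod n)) (0, w, 0) 0 := by
    simpa using ((hasDerivAt_id (0 : ℝ)).smul_const ((0, w, 0) : Mod n)).const_add p
  have d2 := ((dx_coef h).differentiableAt (by simp)).hasFDerivAt.comp_hasDerivAt_of_eq 0 d1
    (by simp)
  have d3 : HasDerivAt (fun t : ℝ => p.2.1 + t • w) w 0 := by
    simpa using ((hasDerivAt_id (0 : ℝ)).smul_const w).const_add p.2.1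
  have h3 : ‖p.2.1‖ ^ 2 ≠ 0 := pow_ne_zero _ (norm_ne_zero_iff.2 h0)
  have d4 := ((hasDerivAt_const (0 : ℝ) (dxc p)).fun_div d3.norm_sq (by simpa using h0)).const_sub 1
  have e : ((fun p : Mod n => 1 - dxc p / ‖p.2.1‖ ^ 2) ∘ fun t : ℝ => p + t • ((0, w, 0) : Mod n)) =
      fun t : ℝ => 1 - dxc p / ‖p.2.1 + t • w‖ ^ 2 := by
    funext t
    simp [dxc, dxq, uu]
  rw [e] at d2
  rw [d2.unique d4]
  simp only [zero_smul, add_zero, Complex.inner, Complex.mul_re, Complex.conj_re, Complex.conj_im]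
  field_simp
  ring

theorem dx_nd {p : Mod n} (h : dxq p < 1 / 2 ∨ p.2.1 ≠ 0) (u : Mod n) (hu : dxα p u = 0)
    (H : ∀ v, dxα p v = 0 → dF dxα p u v = 0) : u = 0 := by
  have a1 : ∀ v : Mod n, dxα p (-dxα p (0, v.2), v.2) = 0 := fun v => by
    simp only [dx_α, dx_lamSt]
    ring
  have hs : ‖p.2.1‖ ^ 2 = p.2.1.re ^ 2 + p.2.1.im ^ 2 := by
    rw [Complex.sq_norm, Complex.normSq_apply]
    ring
  have b1 : ang p.2.1 u.2.1 = 0 := by
    have h1 := H (0, p.2.1, 0) (by simp [dx_α, dx_lamSt, dx_ang, mul_comm])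
    rw [dx_d h, dx_dw h] at h1
    by_cases h0 : p.2.1 = 0
    · rw [h0, dx_ang]
      simp
    have h3 : ‖p.2.1‖ ^ 2 ≠ 0 := pow_ne_zero _ (norm_ne_zero_iff.2 h0)
    have h4 : dxc p / ‖p.2.1‖ ^ 2 / ‖p.2.1‖ ^ 2 * (2 * (p.2.1.re * p.2.1.re + p.2.1.im * p.2.1.im)) =
        2 * (dxc p / ‖p.2.1‖ ^ 2) := by
      rw [← sq, ← sq, ← hs]
      field_simp
    rw [h4] at h1
    simp only [dx_ang, Pi.zero_apply, Complex.zero_re, Complex.zero_im, mul_zero, sub_zero,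
      Finset.sum_const_zero] at h1 ⊢
    linear_combination (-1 / 2 : ℝ) * h1
  have b2 : u.2.2 = 0 := by
    have h1 := H _ (a1 (0, 0, fun i => Complex.I * u.2.2 i))
    rw [dx_d h, b1] at h1
    simp only [map_zero, mul_zero, sub_zero, Complex.zero_re, Complex.zero_im, add_zero,
      Complex.I_mul_re, Complex.I_mul_im] at h1
    funext i
    have h2 := (Finset.sum_eq_zero_iff_of_nonneg fun i _ => by
      nlinarith [sq_nonneg (u.2.2 i).re, sq_nonneg (u.2.2 i).im]).1 h1 i (Finset.mem_univ i)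
    exact Complex.normSq_eq_zero.1 (by rw [Complex.normSq_apply]; linarith)
  have b3 : u.1 = 0 := by
    rw [dx_α, dx_lamSt, b1, b2] at hu
    simpa using hu
  have eu : u = (0, u.2.1, 0) := Prod.ext b3 (Prod.ext rfl b2)
  have b4 : u.2.1 = 0 := by
    have h1 := H _ (a1 (0, Complex.I * u.2.1, 0))
    rw [dx_d h, b1, b2, eu, dx_dw h] at h1
    simp only [dx_ang, Pi.zero_apply, Complex.zero_re, Complex.zero_im, mul_zero, sub_zero,
      Finset.sum_const_zero, Complex.I_mul_re, Complex.I_mul_im, zero_add] at h1 b1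
    have h2 : (p.2.1.re * u.2.1.re + p.2.1.im * u.2.1.im) ^ 2 =
        ‖p.2.1‖ ^ 2 * (u.2.1.re ^ 2 + u.2.1.im ^ 2) := by
      rw [hs]
      linear_combination (-(p.2.1.re * u.2.1.im - p.2.1.im * u.2.1.re)) * b1
    have h3 : dxc p / ‖p.2.1‖ ^ 2 / ‖p.2.1‖ ^ 2 * ‖p.2.1‖ ^ 2 = dxc p / ‖p.2.1‖ ^ 2 := by
      by_cases h0 : ‖p.2.1‖ ^ 2 = 0
      · rw [h0]
        simp
      · exact div_mul_cancel₀ _ h0
    have h4 : u.2.1.re ^ 2 + u.2.1.im ^ 2 = 0 := by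
      linear_combination (1 / 2 : ℝ) * h1 - dxc p / ‖p.2.1‖ ^ 2 / ‖p.2.1‖ ^ 2 * h2 -
        (u.2.1.re ^ 2 + u.2.1.im ^ 2) * h3
    exact Complex.normSq_eq_zero.1 (by rw [Complex.normSq_apply]; linarith)
  rw [eu, b4]
  rfl

/-- An open subset of `ℝ^(2n+1)` with a contact form which contains an overtwisted disc. -/
theorem hasDisc_witness (hn : 1 ≤ n) : ∃ (U : Set (Mod n)) (α : Form1 (Mod n)), IsOpen U ∧
    ContDiffOn ℝ ∞ α U ∧ (∀ p ∈ U, α p ≠ 0 ∧
      ∀ u, α p u = 0 → (∀ v, α p v = 0 → dF α p u v = 0) → u = 0) ∧ HasDisc n (CMap U α) := by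
  refine ⟨_, dxα, (isOpen_lt dx_q.continuous continuous_const).union
    (isOpen_ne_fun dx_w.continuous continuous_const), fun p hp => ?_,
    fun p hp => ⟨fun h => ?_, dx_nd hp⟩, dx_disc hn⟩
  · exact (dx_st.1.contDiffAt.add
      ((dx_coef hp).smul (dx_form (Mod.w n)).1.contDiffAt)).contDiffWithinAt
  · have h1 := congrArg (fun A : Mod n →L[ℝ] ℝ => A (1, 0, 0)) h
    simp [dx_α, dx_lamSt] at h1

end Pool.Agent.Lib.MP_ccffa6_gt
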