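import Pool.Agent.Lib.MP_ccffa6_gt.Asm
import Pool.Agent.Lib.MP_ccffa6_gt.BR.Main
import Pool.Agent.Lib.MP_ccffa6_gt.ELI.Main
import Pool.Agent.Lib.MP_ccffa6_gt.EX.Main
import Pool.Agent.Lib.MP_ccffa6_gt.G.Main
import Pool.Agent.Lib.MP_ccffa6_gt.P.Main
import Pool.Agent.Lib.MP_ccffa6_gt.T.Main
import Pool.Agent.Lib.MP_ccffa6_gt.TOP.Main
import Pool.Agent.Lib.MP_ccffa6_gt.U.Main

/-! The theorem. -/

namespace Pool.Agent.Lib.MP_ccffa6_gt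

theorem final_main {n : ℕ} (hn : 2 ≤ n) : FinalStmt n :=
  final_of (T_main hn) (P_main G_main n) (EX_main n) (ELI_main hn) TE_main (U_main hn) (BR_main n)

end Pool.Agent.Lib.MP_ccffa6_gt
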